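import Pool.Agent.H1.Cpet

namespace Pool.Agent.Results.MP_d6ea2c_co.Counter

open Pool.Agent.H1.Cpet Finset

/-- `T` has a connected partition of every type: for each integer partition of `n` there is a set
partition of the vertices whose blocks induce connected subgraphs and have exactly those sizes. -/
def CPET {n : ℕ} (T : SimpleGraph (Fin n)) : Prop :=
  ∀ l : Nat.Partition n, ∃ P : Finpartition (univ : Finset (Fin n)),
    (∀ B ∈ P.parts, (T.induce (B : Set (Fin n))).Connected) ∧ P.parts.val.map card = l.parts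

def par (i : ℕ) : ℕ := if i = 32 ∨ i = 33 then 30 else if i = 47 ∨ i = 49 then 45 else i - 1

def T : SimpleGraph (Fin 61) where
  Adj x y := (x.1 < y.1 ∧ par y = x) ∨ (y.1 < x.1 ∧ par x = y)
  symm := ⟨fun _ _ h => h.symm⟩
  loopless := ⟨fun _ h => by simp at h⟩

instance : DecidableRel T.Adj := fun _ _ => inferInstanceAs (Decidable (_ ∨ _))

lemma conn (S : Set (Fin 61)) (a b : ℕ) (hab : a < b) (hb : b ≤ 61)
    (hS : ∀ x, x ∈ S ↔ a ≤ x.1 ∧ x.1 < b) (h : ∀ i, a < i → i < b → a ≤ par i) :
    (T.induce S).Connected := by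
  let o : S := ⟨⟨a, by omega⟩, (hS _).2 ⟨le_rfl, hab⟩⟩
  have key : ∀ k, ∀ x : S, x.1.1 = k → (T.induce S).Reachable o x := by
    intro k
    induction k using Nat.strong_induction_on with
    | _ k ih =>
    intro x hx
    have hx' := (hS _).1 x.2
    rcases eq_or_lt_of_le hx'.1 with e | l
    · have : o = x := Subtype.ext (Fin.ext e)
      rw [this]
    · have p1 := h _ l hx'.2
      have p2 : par x.1.1 < x.1.1 := by unfold par; split_ifs <;> omega
      let y : S := ⟨⟨par x.1.1, by omega⟩, (hS _).2 ⟨p1, by simp only; omega⟩⟩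
      exact (ih _ (hx ▸ p2) y rfl).trans (SimpleGraph.Adj.reachable (Or.inl ⟨p2, rfl⟩))
  have : Nonempty S := ⟨o⟩
  exact ⟨fun x y => (key _ x rfl).symm.trans (key _ y rfl)⟩

lemma build (l : List ℕ) : ∀ a, ok a l → a + l.sum = 61 →
    ∃ P : Finpartition (univ.filter (fun x : Fin 61 => a ≤ x.1)),
      (∀ B ∈ P.parts, (T.induce (B : Set (Fin 61))).Connected) ∧ P.parts.val.map card = ↑l := by
  induction l with
  | nil =>
    intro a _ e
    have : univ.filter (fun x : Fin 61 => a ≤ x.1) = ⊥ := by
      ext x; have := x.2; simp at e ⊢; omega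
    rw [this]
    exact ⟨Finpartition.empty _, by simp, by simp⟩
  | cons p l ih =>
    intro a h e
    obtain ⟨h1, h2, h3, h4⟩ := h
    rw [List.sum_cons] at e
    obtain ⟨P, c1, c2⟩ := ih _ h4 (by omega)
    let B := univ.filter (fun x : Fin 61 => a ≤ x.1 ∧ x.1 < a + p)
    have mB : (⟨a, by omega⟩ : Fin 61) ∈ B := by simp [B, h1]
    have hB : B ≠ ⊥ := ne_empty_of_mem mB
    have hd : Disjoint (univ.filter (fun x : Fin 61 => a + p ≤ x.1)) B := by
      rw [disjoint_left]; intro x; simp only [B, mem_filter]; omega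
    have nB : B ∉ P.parts := fun hm => by
      have := P.le hm mB
      simp at this; omega
    refine ⟨P.extend hB hd (by ext x; simp [B]; omega), ?_, ?_⟩
    · intro C hC
      rcases mem_insert.1 hC with rfl | hC
      · refine conn _ a (a + p) (by omega) (by omega) (by simp [B]) fun i i1 i2 => ?_
        unfold par; split_ifs <;> omega
      · exact c1 C hC
    · rw [Finpartition.extend_parts, insert_val_of_notMem nB, Multiset.map_cons, c2]
      have : B.card = p := by
        rw [← card_map Fin.valEmbedding, show B.map Fin.valEmbedding = Ico a (a + p) from ?_]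
        · simp
        · ext x
          simp only [B, mem_map, mem_filter, mem_univ, true_and, mem_Ico, Fin.valEmbedding_apply]
          exact ⟨fun ⟨y, h, e⟩ => e ▸ h, fun h => ⟨⟨x, by omega⟩, h, rfl⟩⟩
      rw [this]; rfl

lemma cpet : CPET T := by
  intro l
  obtain ⟨m, a, b⟩ := good_all _ l.parts.toList rfl (fun x hx => l.parts_pos (by simpa using hx))
    (by rw [Multiset.sum_toList, l.parts_sum])
  have := build m 0 b (by rw [zero_add, a.sum_eq, Multiset.sum_toList, l.parts_sum])
  rw [show univ.filter (fun x : Fin 61 => 0 ≤ x.1) = univ by simp] at this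
  obtain ⟨P, c1, c2⟩ := this
  exact ⟨P, c1, by rw [c2, Multiset.coe_eq_coe.2 a, Multiset.coe_toList]⟩

lemma tree : T.IsTree := by
  rw [SimpleGraph.isTree_iff_connected_and_card]
  constructor
  · exact (SimpleGraph.induceUnivIso T).connected_iff.1
      (conn _ 0 61 (by omega) le_rfl (by simp) (by simp))
  · have h := T.sum_degrees_eq_twice_card_edges
    rw [show ∑ v, T.degree v = 120 by decide +kernel] at h
    rw [Nat.card_eq_fintype_card, ← SimpleGraph.edgeFinset_card]
    simp only [Nat.card_eq_fintype_card, Fintype.card_fin]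
    omega

theorem result : ∃ (n : ℕ) (G : SimpleGraph (Fin n)) (_ : DecidableRel G.Adj),
    G.IsTree ∧ CPET G ∧ G.maxDegree = 4 ∧ ∃ u v, u ≠ v ∧ G.degree u = 4 ∧ G.degree v = 4 :=
  ⟨61, T, inferInstance, tree, cpet, by decide +kernel, 30, 45, by decide, by decide +kernel,
    by decide +kernel⟩

end Pool.Agent.Results.MP_d6ea2c_co.Counter
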